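import Pool.Agent.N167.TR.Stm

set_option autoImplicit false

/-!
# Weak-strong uniqueness on a tree (task TR/6 of `Pool.Agent.N167.TR.Stm`)
-/

namespace Pool.Agent.N227.TR.WS

open Set Filter Topology
open Pool.Agent.N167.TR

/-- the shifted solution solves the shifted equations -/
lemma shift_sol {M : ℕ} {B D ν : ℝ} {f : List (Fin M) → ℝ → ℝ} {x : List (Fin M) → ℝ}
    {S : List (Fin M) → ℝ → ℝ} (hS : IsSol B D ν f x S) {τ : ℝ} (hτ : 0 ≤ τ) (N : ℕ) (T : ℝ) :
    SolUpTo B D ν (fun j t => f j (τ + t)) N T (fun j t => S j (τ + t)) := by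
  intro j _ t ht
  have h1 := hS.2 j (τ + t) (add_nonneg hτ ht.1)
  have h2 : HasDerivWithinAt (fun s : ℝ => τ + s) 1 (Icc 0 T) t :=
    ((hasDerivAt_id t).const_add τ).hasDerivWithinAt
  have h3 := h1.comp t h2 (fun s hs => add_nonneg hτ hs.1)
  simpa [Function.comp_def] using h3

theorem main : S_ws := by
  intro hgen hpsi M B D ν E f x S Z hB hD hν hS hZ hpos hSE hZE hrap
  obtain ⟨g1, g2, g3, g4, g5, g6, g7⟩ := hgen M
  have hE0 : 0 ≤ E := by
    have h := hSE 0 0 le_rfl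
    simp only [zero_add, Finset.sum_range_one, gen] at h
    exact (sq_nonneg _).trans h
  -- nonnegativity of `gen`
  have gnn : ∀ (n : ℕ) (g : List (Fin M) → ℝ), (∀ j, 0 ≤ g j) → 0 ≤ gen n g := by
    intro n g hg
    have h := g3 n (fun _ => 0) g (fun j _ => hg j)
    rw [g5 n 0, mul_zero] at h
    exact h
  -- one generation is below the energy
  have gle : ∀ (Y : List (Fin M) → ℝ → ℝ),
      (∀ N : ℕ, ∀ t, 0 ≤ t → ∑ n ∈ Finset.range (N + 1), gen n (fun j => Y j t ^ 2) ≤ E) →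
      ∀ (n : ℕ) (t : ℝ), 0 ≤ t → gen n (fun j => Y j t ^ 2) ≤ E := by
    intro Y hY n t ht
    refine le_trans ?_ (hY n t ht)
    exact Finset.single_le_sum (f := fun m => gen m (fun j => Y j t ^ 2))
      (fun m _ => gnn m _ fun j => sq_nonneg _) (Finset.self_mem_range_succ n)
  have ble : ∀ (Y : List (Fin M) → ℝ → ℝ), (∀ j t, 0 ≤ t → 0 ≤ Y j t) →
      (∀ N : ℕ, ∀ t, 0 ≤ t → ∑ n ∈ Finset.range (N + 1), gen n (fun j => Y j t ^ 2) ≤ E) →
      ∀ (j : List (Fin M)) (t : ℝ), 0 ≤ t → Y j t ≤ √E := by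
    intro Y hY0 hY j t ht
    apply Real.le_sqrt_of_sq_le
    exact (g4 j.length (fun j => Y j t ^ 2) j (fun i => sq_nonneg _) rfl).trans
      (gle Y hY j.length t ht)
  have hS0 : ∀ j t, 0 ≤ t → 0 ≤ S j t := fun j t ht => (hpos j t ht).1
  have hZ0 : ∀ j t, 0 ≤ t → 0 ≤ Z j t := fun j t ht => (hpos j t ht).2
  have hSb := ble S hS0 hSE
  have hZb := ble Z hZ0 hZE
  -- the functional
  set P : ℕ → ℝ → ℝ := fun N τ =>
    ∑ n ∈ Finset.range (N + 1), (1 / 2 : ℝ) ^ n * gen n (fun j => (S j τ - Z j τ) ^ 2) with hP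
  have hgd : ∀ (n : ℕ) (t : ℝ), 0 ≤ t → gen n (fun j => (S j t - Z j t) ^ 2) ≤ 4 * E := by
    intro n t ht
    have h1 : gen n (fun j => (S j t - Z j t) ^ 2) ≤
        gen n (fun j => 2 * S j t ^ 2 + 2 * Z j t ^ 2) :=
      g3 n _ _ fun j _ => by nlinarith [sq_nonneg (S j t + Z j t)]
    rw [g1 n (fun j => 2 * S j t ^ 2) (fun j => 2 * Z j t ^ 2), g2 n 2 (fun j => S j t ^ 2),
      g2 n 2 (fun j => Z j t ^ 2)] at h1
    linarith [gle S hSE n t ht, gle Z hZE n t ht]
  have htail : ∀ (m : ℕ) (t : ℝ), 0 ≤ t → ∀ k : ℕ,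
      P (m + k) t ≤ P m t + 4 * E * ((1 / 2 : ℝ) ^ m - (1 / 2 : ℝ) ^ (m + k)) := by
    intro m t ht k
    induction k with
    | zero => simp
    | succ k ih =>
      have h1 : P (m + (k + 1)) t = P (m + k) t +
          (1 / 2 : ℝ) ^ (m + k + 1) * gen (m + k + 1) (fun j => (S j t - Z j t) ^ 2) := by
        simp only [hP]
        rw [show m + (k + 1) + 1 = (m + k + 1) + 1 by ring, Finset.sum_range_succ _ (m + k + 1)]
      have h2 : (1 / 2 : ℝ) ^ (m + k + 1) * gen (m + k + 1) (fun j => (S j t - Z j t) ^ 2) ≤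
          (1 / 2 : ℝ) ^ (m + k + 1) * (4 * E) :=
        mul_le_mul_of_nonneg_left (hgd _ t ht) (by positivity)
      have h3 : (1 / 2 : ℝ) ^ (m + (k + 1)) = (1 / 2 : ℝ) ^ (m + k) / 2 := by
        rw [show m + (k + 1) = (m + k) + 1 by ring, pow_succ]; ring
      have h4 : (1 / 2 : ℝ) ^ (m + k + 1) = (1 / 2 : ℝ) ^ (m + k) / 2 := by
        rw [pow_succ]; ring
      rw [h1, h3, h4]
      rw [h4] at h2
      nlinarith
  intro j₀ t₀ ht₀
  rcases ht₀.eq_or_lt with h0 | ht₀
  · rw [← h0, hS.1 j₀, hZ.1 j₀]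
  -- the basic estimate
  have hA : ∀ τ : ℝ, 0 < τ → τ ≤ t₀ → ∀ m : ℕ,
      (1 / 2 : ℝ) ^ j₀.length * (S j₀ t₀ - Z j₀ t₀) ^ 2 ≤ P m τ + 4 * E * (1 / 2 : ℝ) ^ m := by
    intro τ hτ hτt m
    obtain ⟨a, ha, hab⟩ := hrap τ hτ
    have hs : 0 < B * M + 1 := by positivity
    obtain ⟨C, hC⟩ := ha (B * M + 1) hs
    have hC' : ∀ n : ℕ, (B * M + 1) ^ n * max (a n) 0 ≤ max C 0 := by
      intro n
      rcases le_total (a n) 0 with h | h
      · rw [max_eq_right h, mul_zero]; exact le_max_right _ _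
      · rw [max_eq_left h]; exact (hC n).trans (le_max_left _ _)
    set K : ℝ := 2 * M * E * max C 0 with hK
    have hK0 : 0 ≤ K := by positivity
    have main : ∀ N : ℕ, j₀.length ≤ N → m ≤ N →
        (1 / 2 : ℝ) ^ j₀.length * (S j₀ t₀ - Z j₀ t₀) ^ 2 ≤
          P m τ + 4 * E * (1 / 2 : ℝ) ^ m + 2 * ((1 / 2 : ℝ) ^ N * K) * (t₀ - τ) := by
      intro N hjN hmN
      have h1 := hpsi (fun M => hgen M) M B D ν (fun j t => f j (τ + t)) N (t₀ - τ)
        ((1 / 2 : ℝ) ^ N * K)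
        (fun j t => S j (τ + t)) (fun j t => Z j (τ + t)) hB.le hD.le hν.le (by linarith)
        (shift_sol hS hτ.le N _) (shift_sol hZ hτ.le N _)
        (fun j _ t ht => hpos j (τ + t) (add_nonneg hτ.le ht.1))
        (fun t ht => by
          have hτt' : 0 ≤ τ + t := add_nonneg hτ.le ht.1
          have e1 : gen N (fun j => S j (τ + t) * Z j (τ + t) *
              ∑ k : Fin M, (S (k :: j) (τ + t) + Z (k :: j) (τ + t))) ≤
              gen N (fun _ : List (Fin M) => max (a N) 0 * √E * (M * (2 * √E))) := by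
            refine g3 N _ _ fun j hj => ?_
            have b1 : S j (τ + t) ≤ max (a N) 0 := by
              have := hab j (τ + t) (by linarith [ht.1])
              rw [hj] at this
              exact this.trans (le_max_left _ _)
            have b2 := hZb j (τ + t) hτt'
            have b3 : ∑ k : Fin M, (S (k :: j) (τ + t) + Z (k :: j) (τ + t)) ≤ M * (2 * √E) := by
              have : ∑ k : Fin M, (S (k :: j) (τ + t) + Z (k :: j) (τ + t)) ≤
                  ∑ _k : Fin M, (2 * √E) :=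
                Finset.sum_le_sum fun k _ => by
                  linarith [hSb (k :: j) (τ + t) hτt', hZb (k :: j) (τ + t) hτt']
              simpa using this
            have b4 : 0 ≤ ∑ k : Fin M, (S (k :: j) (τ + t) + Z (k :: j) (τ + t)) :=
              Finset.sum_nonneg fun k _ => add_nonneg (hS0 _ _ hτt') (hZ0 _ _ hτt')
            exact mul_le_mul (mul_le_mul b1 b2 (hZ0 _ _ hτt') (le_max_right _ _)) b3 b4
              (mul_nonneg (le_max_right _ _) (Real.sqrt_nonneg _))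
          rw [g5 N] at e1
          have e2 : (1 / 2 : ℝ) ^ N * B ^ N * ((M : ℝ) ^ N * (max (a N) 0 * √E * (M * (2 * √E)))) =
              (1 / 2 : ℝ) ^ N * (2 * M * E * ((B * M) ^ N * max (a N) 0)) := by
            rw [mul_pow]
            have : √E * √E = E := Real.mul_self_sqrt hE0
            linear_combination (1 / 2 : ℝ) ^ N * B ^ N * (M : ℝ) ^ N * max (a N) 0 * M * 2 * this
          have e3 : (B * M) ^ N * max (a N) 0 ≤ max C 0 := by
            refine le_trans ?_ (hC' N)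
            gcongr
            linarith
          calc (1 / 2 : ℝ) ^ N * B ^ N * gen N (fun j => S j (τ + t) * Z j (τ + t) *
              ∑ k : Fin M, (S (k :: j) (τ + t) + Z (k :: j) (τ + t)))
              ≤ (1 / 2 : ℝ) ^ N * B ^ N *
                ((M : ℝ) ^ N * (max (a N) 0 * √E * (M * (2 * √E)))) :=
                mul_le_mul_of_nonneg_left e1 (by positivity)
            _ = (1 / 2 : ℝ) ^ N * (2 * M * E * ((B * M) ^ N * max (a N) 0)) := e2
            _ ≤ (1 / 2 : ℝ) ^ N * K := by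
                rw [hK]
                gcongr)
        (t₀ - τ) (right_mem_Icc.2 (by linarith))
      simp only [add_sub_cancel, add_zero] at h1
      have h2 : (1 / 2 : ℝ) ^ j₀.length * (S j₀ t₀ - Z j₀ t₀) ^ 2 ≤ P N t₀ := by
        have h3 : (S j₀ t₀ - Z j₀ t₀) ^ 2 ≤
            gen j₀.length (fun j => (S j t₀ - Z j t₀) ^ 2) :=
          g4 j₀.length (fun j => (S j t₀ - Z j t₀) ^ 2) j₀ (fun i => sq_nonneg _) rfl
        refine le_trans (mul_le_mul_of_nonneg_left h3 (by positivity)) ?_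
        exact Finset.single_le_sum
          (f := fun n => (1 / 2 : ℝ) ^ n * gen n (fun j => (S j t₀ - Z j t₀) ^ 2))
          (fun n _ => mul_nonneg (by positivity) (gnn n _ fun j => sq_nonneg _))
          (Finset.mem_range.2 (by omega))
      have h4 := htail m τ hτ.le (N - m)
      rw [show m + (N - m) = N by omega] at h4
      have h5 : 0 ≤ 4 * E * (1 / 2 : ℝ) ^ N := by positivity
      have h6 : P N t₀ ≤ P N τ + 2 * ((1 / 2 : ℝ) ^ N * K) * (t₀ - τ) := h1
      linarith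
    have hlim : Tendsto (fun N : ℕ => P m τ + 4 * E * (1 / 2 : ℝ) ^ m +
        2 * ((1 / 2 : ℝ) ^ N * K) * (t₀ - τ)) atTop
        (𝓝 (P m τ + 4 * E * (1 / 2 : ℝ) ^ m + 2 * (0 * K) * (t₀ - τ))) :=
      ((((tendsto_pow_atTop_nhds_zero_of_lt_one (by norm_num) (by norm_num)).mul_const
        K).const_mul 2).mul_const (t₀ - τ)).const_add _
    rw [zero_mul, mul_zero, zero_mul, add_zero] at hlim
    exact ge_of_tendsto hlim ((eventually_ge_atTop (max j₀.length m)).mono fun N hN =>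
      main N ((le_max_left _ _).trans hN) ((le_max_right _ _).trans hN))
  -- `τ → 0`
  have hcont : ∀ m : ℕ, Tendsto (P m) (𝓝[>] 0) (𝓝 0) := by
    intro m
    have h1 : ContinuousWithinAt (P m) (Ici 0) 0 := by
      apply tendsto_finsetSum
      intro n _
      apply Tendsto.const_mul
      have h2 := g6 n (fun j t => (S j t - Z j t) ^ 2)
        (fun j t => 2 * (S j t - Z j t) *
          (rhs B D ν (fun i => f i t) (fun i => S i t) j -
            rhs B D ν (fun i => f i t) (fun i => Z i t) j)) (Ici 0) 0 (fun j _ => by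
          have h3 := ((hS.2 j 0 le_rfl).sub (hZ.2 j 0 le_rfl)).fun_pow 2
          refine h3.congr_deriv ?_
          simp)
      exact h2.continuousWithinAt
    have h4 : P m 0 = 0 := by
      simp only [hP]
      apply Finset.sum_eq_zero
      intro n _
      have h5 : (fun j => (S j 0 - Z j 0) ^ 2) = fun _ => (0 : ℝ) := by
        funext j
        rw [hS.1 j, hZ.1 j]; ring
      rw [h5, g5 n 0]; ring
    have h6 : Tendsto (P m) (𝓝[Ici 0] 0) (𝓝 (P m 0)) := h1
    rw [h4] at h6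
    exact h6.mono_left (nhdsWithin_mono _ Ioi_subset_Ici_self)
  have hB' : ∀ m : ℕ, (1 / 2 : ℝ) ^ j₀.length * (S j₀ t₀ - Z j₀ t₀) ^ 2 ≤
      0 + 4 * E * (1 / 2 : ℝ) ^ m := by
    intro m
    refine ge_of_tendsto ((hcont m).add_const (4 * E * (1 / 2 : ℝ) ^ m)) ?_
    have : Ioc (0 : ℝ) t₀ ∈ 𝓝[>] (0 : ℝ) := Ioc_mem_nhdsGT ht₀
    filter_upwards [this] with τ hτ
    exact hA τ hτ.1 hτ.2 m
  have hlim2 : Tendsto (fun m : ℕ => 0 + 4 * E * (1 / 2 : ℝ) ^ m) atTop (𝓝 (0 + 4 * E * 0)) :=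
    ((tendsto_pow_atTop_nhds_zero_of_lt_one (by norm_num) (by norm_num)).const_mul _).const_add _
  rw [mul_zero, add_zero] at hlim2
  have h2 := ge_of_tendsto' hlim2 hB'
  have h3 : (S j₀ t₀ - Z j₀ t₀) ^ 2 ≤ 0 := by
    have h4 : 0 < (1 / 2 : ℝ) ^ j₀.length := by positivity
    by_contra hcon
    push Not at hcon
    have := mul_pos h4 hcon
    linarith
  have h5 : S j₀ t₀ - Z j₀ t₀ = 0 := (pow_eq_zero_iff two_ne_zero).1 (le_antisymm h3 (sq_nonneg _))
  linarith

end Pool.Agent.N227.TR.WS
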